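import Pool.Agent.Helper29.E3.St2

set_option autoImplicit false

namespace Pool.Agent.Helper60.E3

open Finset ArithmeticFunction
open Pool.Agent.Helper29.E3 Pool.Agent.Helper49.PC
open Pool.Agent.Helper48.BK (ex th lz Vz Pz gs nd Apx AdN Sol thd)
open scoped ComplexConjugate

theorem ex_conj_PVC (t : ℝ) : conj (ex t) = ex (-t) := by
  unfold Pool.Agent.Helper48.BK.ex
  rw [← Complex.exp_conj]
  congr 1
  simp only [map_mul, Complex.conj_ofReal, Complex.conj_I, map_ofNat, Complex.ofReal_neg]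
  ring

theorem range_eq_PVC (q : ℕ) [NeZero q] (f : ZMod q → ℂ) :
    ∑ x ∈ range q, f (x : ZMod q) = ∑ a : ZMod q, f a := by
  symm
  refine Finset.sum_bij (fun a _ => a.val) ?_ ?_ ?_ ?_
  · intro a _; exact Finset.mem_range.2 (ZMod.val_lt a)
  · intro a _ b _ h; exact ZMod.val_injective q h
  · intro x hx
    exact ⟨(x : ZMod q), Finset.mem_univ _, ZMod.val_cast_of_lt (Finset.mem_range.1 hx)⟩
  · intro a _
    rw [ZMod.natCast_zmod_val]

theorem nd_PVC {q i : ℕ} (h1 : 1 ≤ i) (h2 : i < q) :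
    0 < nd ((i : ℝ) / q) ∧ 1 / nd ((i : ℝ) / q) ≤ (q : ℝ) * (1 / i + 1 / ((q - i : ℕ) : ℝ)) := by
  have hi : (0 : ℝ) < i := by exact_mod_cast h1
  have hq : (0 : ℝ) < q := by exact_mod_cast (by omega : 0 < q)
  have hiq : (i : ℝ) < q := by exact_mod_cast h2
  have hs : ((q - i : ℕ) : ℝ) = q - i := by rw [Nat.cast_sub h2.le]
  set t : ℝ := (i : ℝ) / q with ht
  have ht0 : 0 < t := div_pos hi hq
  have ht1 : t < 1 := by rw [ht, div_lt_one hq]; exact hiq
  have key : t ≤ nd t ∨ 1 - t ≤ nd t := by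
    unfold Pool.Agent.Helper48.BK.nd
    rcases le_or_gt (round t) 0 with h | h
    · left
      have h3 : ((round t : ℤ) : ℝ) ≤ 0 := by exact_mod_cast h
      have h4 := le_abs_self (t - round t)
      linarith
    · right
      have h3 : (1 : ℝ) ≤ ((round t : ℤ) : ℝ) := by exact_mod_cast h
      have h4 := neg_abs_le (t - round t)
      linarith
  have e1 : (q : ℝ) * (1 / i) = 1 / t := by rw [ht]; field_simp
  have e2 : (q : ℝ) * (1 / ((q - i : ℕ) : ℝ)) = 1 / (1 - t) := by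
    rw [hs, ht]
    have : (q : ℝ) - i ≠ 0 := by linarith
    field_simp
  have h5 : 0 < 1 - t := by linarith
  rw [mul_add, e1, e2]
  have p1 : 0 < 1 / t := by positivity
  have p2 : 0 < 1 / (1 - t) := by positivity
  rcases key with h | h
  · have h6 : 0 < nd t := lt_of_lt_of_le ht0 h
    refine ⟨h6, ?_⟩
    have := one_div_le_one_div_of_le ht0 h
    linarith
  · have h6 : 0 < nd t := lt_of_lt_of_le h5 h
    refine ⟨h6, ?_⟩
    have := one_div_le_one_div_of_le h5 h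
    linarith

theorem har_PVC (q : ℕ) : ∑ j ∈ Icc 1 q, (1 : ℝ) / j ≤ 1 + Real.log q := by
  have h := harmonic_le_one_add_log q
  rw [harmonic_eq_sum_Icc] at h
  push_cast at h
  simpa [one_div] using h

theorem gcdsum_PVC (q : ℕ) (hq : 1 ≤ q) :
    ∑ i ∈ Ico 1 q, √(Nat.gcd i q : ℝ) * (1 / (i : ℝ)) ≤
      (q.divisors.card : ℝ) * (1 + Real.log q) := by
  have h1 : ∀ i ∈ Ico 1 q, √(Nat.gcd i q : ℝ) * (1 / (i : ℝ)) ≤
      ∑ d ∈ q.divisors, if d ∣ i then √(d : ℝ) * (1 / (i : ℝ)) else 0 := by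
    intro i hi
    have hg : Nat.gcd i q ∈ q.divisors :=
      Nat.mem_divisors.2 ⟨Nat.gcd_dvd_right i q, by omega⟩
    have h2 : √(Nat.gcd i q : ℝ) * (1 / (i : ℝ)) =
        (if Nat.gcd i q ∣ i then √((Nat.gcd i q : ℕ) : ℝ) * (1 / (i : ℝ)) else 0) := by
      rw [if_pos (Nat.gcd_dvd_left i q)]
    rw [h2]
    refine Finset.single_le_sum (f := fun d : ℕ => if d ∣ i then √(d : ℝ) * (1 / (i : ℝ)) else 0)
      ?_ hg
    intro d _
    show (0 : ℝ) ≤ if d ∣ i then √(d : ℝ) * (1 / (i : ℝ)) else 0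
    split_ifs
    · positivity
    · exact le_rfl
  refine (Finset.sum_le_sum h1).trans ?_
  rw [Finset.sum_comm]
  have h3 : ∀ d ∈ q.divisors,
      ∑ i ∈ Ico 1 q, (if d ∣ i then √(d : ℝ) * (1 / (i : ℝ)) else 0) ≤ 1 + Real.log q := by
    intro d hd
    have hd0 : 0 < d := Nat.pos_of_mem_divisors hd
    have hd1 : (1 : ℝ) ≤ d := by exact_mod_cast hd0
    rw [← Finset.sum_filter]
    refine le_trans ?_ (har_PVC q)
    have h4 : ∑ i ∈ (Ico 1 q).filter (fun i => d ∣ i), √(d : ℝ) * (1 / (i : ℝ)) ≤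
        ∑ i ∈ (Ico 1 q).filter (fun i => d ∣ i), 1 / ((i / d : ℕ) : ℝ) := by
      refine Finset.sum_le_sum ?_
      intro i hi
      obtain ⟨hi1, c, rfl⟩ := Finset.mem_filter.1 hi
      have hc : 0 < c := by
        rcases Nat.eq_zero_or_pos c with h | h
        · subst h; simp at hi1
        · exact h
      rw [Nat.mul_div_cancel_left c hd0]
      have hc' : (0 : ℝ) < c := by exact_mod_cast hc
      have hs : √(d : ℝ) ≤ d := by
        rw [Real.sqrt_le_left (by positivity)]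
        nlinarith
      push_cast
      calc √(d : ℝ) * (1 / ((d : ℝ) * c)) ≤ d * (1 / ((d : ℝ) * c)) := by
            exact mul_le_mul_of_nonneg_right hs (by positivity)
        _ = 1 / (c : ℝ) := by field_simp
    refine h4.trans ?_
    have h5 : ∑ i ∈ (Ico 1 q).filter (fun i => d ∣ i), 1 / ((i / d : ℕ) : ℝ) =
        ∑ j ∈ ((Ico 1 q).filter (fun i => d ∣ i)).image (fun i => i / d), 1 / (j : ℝ) := by
      rw [Finset.sum_image]
      intro a ha b hb hab
      have ha2 := (Finset.mem_filter.1 ha).2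
      have hb2 := (Finset.mem_filter.1 hb).2
      have hab' : a / d = b / d := hab
      rw [← Nat.div_mul_cancel ha2, ← Nat.div_mul_cancel hb2, hab']
    rw [h5]
    refine Finset.sum_le_sum_of_subset_of_nonneg ?_ (fun _ _ _ => by positivity)
    intro j hj
    obtain ⟨i, hi, rfl⟩ := Finset.mem_image.1 hj
    obtain ⟨hi1, hi2⟩ := Finset.mem_filter.1 hi
    rw [Finset.mem_Ico] at hi1
    rw [Finset.mem_Icc]
    exact ⟨Nat.div_pos (Nat.le_of_dvd (by omega) hi2) hd0,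
      (Nat.div_le_self i d).trans hi1.2.le⟩
  refine (Finset.sum_le_sum h3).trans ?_
  rw [Finset.sum_const, nsmul_eq_mul]

theorem hPVC (hORT : StORT) (hGBD : StGBD) (hGeo1 : Pool.Agent.Helper48.BK.StGeo1) :
    StPVC := by
  intro q hq0 χ u w hχ
  have hq : 1 ≤ q := Nat.one_le_iff_ne_zero.2 (NeZero.ne q)
  have hqR : (0 : ℝ) < q := by exact_mod_cast hq
  have hqC : (q : ℂ) ≠ 0 := by exact_mod_cast (NeZero.ne q)
  have hφ : (0 : ℝ) < Nat.totient q := by exact_mod_cast Nat.totient_pos.2 hq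
  have hφC : (Nat.totient q : ℂ) ≠ 0 := by exact_mod_cast hφ.ne'
  -- the finite Fourier transform
  let S : ℕ → ℂ := fun i => ∑ x ∈ range q, χ (x : ZMod q) * ex (-((i : ℝ) * x / q))
  have hS : ∀ i : ℕ, S i = (Nat.totient q : ℂ) * conj (Gs χ (i : ℤ)) := by
    intro i
    unfold Pool.Agent.Helper49.PC.Gs
    rw [map_mul, map_div₀, map_one, Complex.conj_natCast, ← mul_assoc, mul_one_div_cancel hφC,
      one_mul, map_sum]
    refine Finset.sum_congr rfl fun x _ => ?_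
    rw [map_mul, Complex.conj_conj, ex_conj_PVC, Int.cast_natCast]
  have hSn : ∀ i : ℕ, ‖S i‖ ≤ √(q : ℝ) * √(Nat.gcd i q : ℝ) := by
    intro i
    have h1 := hGBD q χ (i : ℤ)
    have h2 : ‖S i‖ ^ 2 = (Nat.totient q : ℝ) ^ 2 * ‖Gs χ (i : ℤ)‖ ^ 2 := by
      rw [hS, norm_mul, Complex.norm_natCast, RCLike.norm_conj, mul_pow]
    rw [← h2, Int.gcd_natCast_natCast] at h1
    rw [← Real.sqrt_mul hqR.le]
    exact Real.le_sqrt_of_sq_le h1
  have hS0 : S 0 = 0 := by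
    show ∑ x ∈ range q, χ (x : ZMod q) * ex (-(((0 : ℕ) : ℝ) * x / q)) = 0
    have h1 : ∀ x ∈ range q, χ (x : ZMod q) * ex (-(((0 : ℕ) : ℝ) * x / q)) =
        χ (x : ZMod q) := by
      intro x _
      have h2 : -(((0 : ℕ) : ℝ) * x / q) = ((0 : ℤ) : ℝ) := by simp
      rw [h2, ex_int, mul_one]
    rw [Finset.sum_congr rfl h1, range_eq_PVC q (fun a => χ a)]
    exact MulChar.sum_eq_zero_of_ne_one hχ
  -- inversion
  have hinv : ∀ n : ℕ, ∑ i ∈ range q, S i * ex ((n : ℝ) * ((i : ℝ) / q)) =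
      (q : ℂ) * χ (n : ZMod q) := by
    intro n
    have h1 : ∀ i ∈ range q, S i * ex ((n : ℝ) * ((i : ℝ) / q)) =
        ∑ x ∈ range q, χ (x : ZMod q) * ex ((((n : ℤ) - (x : ℤ) : ℤ) : ℝ) * i / q) := by
      intro i _
      show (∑ x ∈ range q, χ (x : ZMod q) * ex (-((i : ℝ) * x / q))) *
        ex ((n : ℝ) * ((i : ℝ) / q)) = _
      rw [Finset.sum_mul]
      refine Finset.sum_congr rfl fun x _ => ?_
      rw [mul_assoc, ← ex_add]
      congr 2
      push_cast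
      ring
    rw [Finset.sum_congr rfl h1, Finset.sum_comm]
    have h2 : ∀ x ∈ range q,
        ∑ i ∈ range q, χ (x : ZMod q) * ex ((((n : ℤ) - (x : ℤ) : ℤ) : ℝ) * i / q) =
        if x = n % q then (q : ℂ) * χ (n : ZMod q) else 0 := by
      intro x hx
      rw [← Finset.mul_sum, hORT q ((n : ℤ) - x) hq]
      have hxq := Finset.mem_range.1 hx
      by_cases h : x = n % q
      · rw [if_pos h, if_pos]
        · have h3 : (x : ZMod q) = (n : ZMod q) := by
            rw [h]; exact (ZMod.natCast_mod n q)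
          rw [h3]; ring
        · have h4 : (q : ℤ) ∣ (n : ℤ) - ((n % q : ℕ) : ℤ) := by
            rw [Int.natCast_mod]
            exact Int.dvd_self_sub_emod
          rw [h]; exact h4
      · rw [if_neg h, if_neg, mul_zero]
        intro h5
        apply h
        have h6 : (x : ℤ) ≡ (n : ℤ) [ZMOD q] := (Int.modEq_iff_dvd).2 h5
        have h7 : x ≡ n [MOD q] := (Int.natCast_modEq_iff).1 h6
        have h8 : x % q = n % q := h7
        rwa [Nat.mod_eq_of_lt hxq] at h8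
    rw [Finset.sum_congr rfl h2, Finset.sum_ite_eq', if_pos (Finset.mem_range.2 (Nat.mod_lt n hq))]
  -- geometric sums
  have hgeo : ∀ i ∈ Ico 1 q, ‖∑ n ∈ Ioc u w, ex ((n : ℝ) * ((i : ℝ) / q))‖ ≤
      (q : ℝ) * (1 / i + 1 / ((q - i : ℕ) : ℝ)) := by
    intro i hi
    rw [Finset.mem_Ico] at hi
    obtain ⟨h1, h2⟩ := nd_PVC hi.1 hi.2
    refine le_trans ?_ h2
    rcases le_or_gt u w with h | h
    · have h3 := hGeo1.1 u (w - u) ((i : ℝ) / q)
      rw [Nat.add_sub_cancel' h] at h3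
      refine h3.trans ?_
      unfold Pool.Agent.Helper48.BK.gs
      split_ifs with h4
      · rw [le_div_iff₀ h1]; exact h4
      · exact le_rfl
    · rw [Finset.Ioc_eq_empty (by omega), Finset.sum_empty, norm_zero]
      positivity
  -- the main identity
  have hmain : (q : ℂ) * ∑ n ∈ Ioc u w, χ (n : ZMod q) =
      ∑ i ∈ Ico 1 q, S i * ∑ n ∈ Ioc u w, ex ((n : ℝ) * ((i : ℝ) / q)) := by
    rw [Finset.mul_sum]
    have h1 : ∀ n ∈ Ioc u w, (q : ℂ) * χ (n : ZMod q) =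
        ∑ i ∈ range q, S i * ex ((n : ℝ) * ((i : ℝ) / q)) := fun n _ => (hinv n).symm
    rw [Finset.sum_congr rfl h1, Finset.sum_comm]
    have h2 : ∀ i ∈ range q, ∑ n ∈ Ioc u w, S i * ex ((n : ℝ) * ((i : ℝ) / q)) =
        S i * ∑ n ∈ Ioc u w, ex ((n : ℝ) * ((i : ℝ) / q)) := fun i _ => by rw [Finset.mul_sum]
    rw [Finset.sum_congr rfl h2, Finset.range_eq_Ico, Finset.sum_eq_sum_Ico_succ_bot hq, hS0,
      zero_mul, zero_add]
  have hb : (q : ℝ) * ‖∑ n ∈ Ioc u w, χ (n : ZMod q)‖ ≤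
      ∑ i ∈ Ico 1 q, (√(q : ℝ) * √(Nat.gcd i q : ℝ)) *
        ((q : ℝ) * (1 / i + 1 / ((q - i : ℕ) : ℝ))) := by
    have h1 : (q : ℝ) * ‖∑ n ∈ Ioc u w, χ (n : ZMod q)‖ =
        ‖(q : ℂ) * ∑ n ∈ Ioc u w, χ (n : ZMod q)‖ := by
      rw [norm_mul, Complex.norm_natCast]
    rw [h1, hmain]
    refine (norm_sum_le _ _).trans (Finset.sum_le_sum ?_)
    intro i hi
    rw [norm_mul]
    exact mul_le_mul (hSn i) (hgeo i hi) (norm_nonneg _) (by positivity)
  have hsplit : ∑ i ∈ Ico 1 q, (√(q : ℝ) * √(Nat.gcd i q : ℝ)) *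
        ((q : ℝ) * (1 / i + 1 / ((q - i : ℕ) : ℝ))) =
      (q : ℝ) * √(q : ℝ) * (2 * ∑ i ∈ Ico 1 q, √(Nat.gcd i q : ℝ) * (1 / (i : ℝ))) := by
    have h1 : ∑ i ∈ Ico 1 q, √(Nat.gcd i q : ℝ) * (1 / ((q - i : ℕ) : ℝ)) =
        ∑ i ∈ Ico 1 q, √(Nat.gcd i q : ℝ) * (1 / (i : ℝ)) := by
      have h2 := Finset.sum_Ico_reflect
        (fun j : ℕ => √(Nat.gcd j q : ℝ) * (1 / (j : ℝ))) 1 (m := q) (n := q) (by omega)
      have h3 : q + 1 - q = 1 := by omega
      have h4 : q + 1 - 1 = q := by omega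
      rw [h3, h4] at h2
      rw [← h2]
      refine Finset.sum_congr rfl fun i hi => ?_
      rw [Finset.mem_Ico] at hi
      have h5 : Nat.gcd (q - i) q = Nat.gcd i q := by
        rw [Nat.gcd_comm, Nat.gcd_comm i q]
        exact Nat.gcd_self_sub_right hi.2.le
      rw [h5]
    have h6 : ∀ i ∈ Ico 1 q, (√(q : ℝ) * √(Nat.gcd i q : ℝ)) *
        ((q : ℝ) * (1 / i + 1 / ((q - i : ℕ) : ℝ))) =
        (q : ℝ) * √(q : ℝ) * (√(Nat.gcd i q : ℝ) * (1 / (i : ℝ)) +
          √(Nat.gcd i q : ℝ) * (1 / ((q - i : ℕ) : ℝ))) := fun i _ => by ring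
    rw [Finset.sum_congr rfl h6, ← Finset.mul_sum, Finset.sum_add_distrib, h1]
    ring
  rw [hsplit] at hb
  have h7 := gcdsum_PVC q hq
  have h8 : ‖∑ n ∈ Ioc u w, χ (n : ZMod q)‖ ≤
      √(q : ℝ) * (2 * ∑ i ∈ Ico 1 q, √(Nat.gcd i q : ℝ) * (1 / (i : ℝ))) := by
    rw [mul_assoc] at hb
    exact le_of_mul_le_mul_left hb hqR
  refine h8.trans ?_
  have h9 : √(q : ℝ) * (2 * ∑ i ∈ Ico 1 q, √(Nat.gcd i q : ℝ) * (1 / (i : ℝ))) ≤
      √(q : ℝ) * (2 * ((q.divisors.card : ℝ) * (1 + Real.log q))) := by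
    refine mul_le_mul_of_nonneg_left ?_ (Real.sqrt_nonneg _)
    linarith
  refine h9.trans (le_of_eq ?_)
  ring

end Pool.Agent.Helper60.E3
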